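import Mathlib
import Pool.Agent.H2.EdgeCert

namespace Pool.Agent.Results.MP_08a4a0_co.PlayerOne
open Pool.Agent.H2.EdgeGame

/-- The triangular ladder: `i` and `j` are adjacent when they differ by 1 or 2. -/
def T (n : ℕ) : SimpleGraph (Fin n) :=
  SimpleGraph.fromRel fun i j => j.val = i.val + 1 ∨ j.val = i.val + 2

/-- A position gives each vertex a colour, `0` meaning uncoloured. It is distinguishing when
distinct edges with both ends coloured get distinct multisets of colours. -/
def Dist {V : Type} (G : SimpleGraph V) (c : V → ℕ) : Prop :=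
  ∀ u v x y, G.Adj u v → G.Adj x y → c u ≠ 0 → c v ≠ 0 → c x ≠ 0 → c y ≠ 0 →
    s(c u, c v) = s(c x, c y) → s(u, v) = s(x, y)

/-- The edge-distinguishing chromatic number. -/
noncomputable def lam {V : Type} (G : SimpleGraph V) : ℕ :=
  sInf {k | 1 ≤ k ∧ ∃ c : V → ℕ, (∀ v, 1 ≤ c v ∧ c v ≤ k) ∧ Dist G c}

/-- Colouring the uncoloured vertex `v` with `a` in `1..k` is a legal move at position `c`. -/
def Legal {V : Type} [DecidableEq V] (G : SimpleGraph V) (k : ℕ) (c : V → ℕ) (v : V) (a : ℕ) :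
    Prop := c v = 0 ∧ 1 ≤ a ∧ a ≤ k ∧ Dist G (Function.update c v a)

/-- The player to move wins: he has a legal move such that he wins again after every legal
reply (in particular when there is no legal reply). -/
inductive Win {V : Type} [DecidableEq V] (G : SimpleGraph V) (k : ℕ) : (V → ℕ) → Prop
  | mk (c : V → ℕ) (v : V) (a : ℕ) : Legal G k c v a →
      (∀ w b, Legal G k (Function.update c v a) w b →
        Win G k (Function.update (Function.update c v a) w b)) → Win G k c

theorem nd_iff (l : List ℕ) (m : ℕ) :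
    nd l m = true ↔ l.Nodup ∧ ∀ a ∈ l, m.testBit a = false := by
  induction l generalizing m with
  | nil => simp [nd]
  | cons a l ih =>
    simp only [nd, Bool.and_eq_true, ih, Nat.testBit_or, Nat.testBit_two_pow, List.nodup_cons,
      List.mem_cons, forall_eq_or_imp, Bool.or_eq_false_iff, decide_eq_false_iff_not,
      Bool.not_eq_true']
    exact ⟨fun ⟨h1, h2, h3⟩ => ⟨⟨fun h => (h3 a h).2 rfl, h2⟩, h1, fun b hb => (h3 b hb).1⟩,
      fun ⟨⟨h1, h2⟩, h3, h4⟩ => ⟨h3, h2, fun b hb => ⟨h4 b hb, fun e => h1 (e ▸ hb)⟩⟩⟩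

theorem adj_iff (u v : Fin 8) : (T 8).Adj u v ↔ (u.val, v.val) ∈ E ∨ (v.val, u.val) ∈ E := by
  unfold T; simp only [SimpleGraph.fromRel_adj]; revert u v; decide

theorem good_iff (s : ℕ) : good s = true ↔ Dist (T 8) fun v => dg s v := by
  have lt : ∀ j, dg s j < 8 := fun j => Nat.mod_lt _ (by norm_num)
  rw [good_eq, good0, nd_iff, List.Nodup, List.pairwise_filterMap]
  simp only [Nat.zero_testBit, implies_true, and_true]
  constructor
  · intro h
    have h' : ∀ e ∈ E, ∀ e' ∈ E, e ≠ e' → ∀ b, idf s e = some b → ∀ b', idf s e' = some b' →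
        b ≠ b' := fun e he e' he' hne =>
      haveI : Std.Symm fun a a' : ℕ × ℕ => ∀ b, idf s a = some b → ∀ b', idf s a' = some b' →
        b ≠ b' := ⟨fun _ _ h b hb b' hb' => (h b' hb' b hb).symm⟩
      h.forall he he' hne
    intro u v x y h1 h2 c1 c2 c3 c4 e
    beta_reduce at c1 c2 c3 c4 e
    rw [adj_iff] at h1 h2
    rw [Sym2.eq_iff] at e ⊢
    simp only [Fin.ext_iff]
    by_contra hne
    rcases h1 with h1 | h1 <;> rcases h2 with h2 | h2 <;>
      refine h' _ h1 _ h2 (by simp only [Ne, Prod.mk.injEq]; omega) _ (if_neg (by tauto)) _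
        (if_neg (by tauto)) ?_ <;> simp only <;> omega
  · intro h
    refine List.Nodup.pairwise_of_forall_ne (by decide) fun e he e' he' hne b hb b' hb' hbb => ?_
    have hE : ∀ e ∈ E, e.1 < e.2 ∧ e.2 < 8 := by decide
    have a1 := hE e he
    have a2 := hE e' he'
    unfold idf at hb hb'
    split_ifs at hb hb' with g1 g2
    have := h ⟨e.1, by omega⟩ ⟨e.2, by omega⟩ ⟨e'.1, by omega⟩ ⟨e'.2, by omega⟩
      ((adj_iff _ _).2 (Or.inl he)) ((adj_iff _ _).2 (Or.inl he')) (by tauto) (by tauto)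
      (by tauto) (by tauto) (by
        have := lt e.1; have := lt e.2; have := lt e'.1; have := lt e'.2
        simp only [Option.some.injEq] at hb hb'
        rw [Sym2.eq_iff]; simp only; omega)
    rw [Sym2.eq_iff] at this
    simp only [Fin.mk.injEq] at this
    exact hne (Prod.ext (by omega) (by omega))

theorem upd {s a : ℕ} (v : Fin 8) (h : dg s v = 0) (ha : a < 8) :
    (fun w : Fin 8 => dg (s + a * 8 ^ v.val) w) = Function.update (fun w : Fin 8 => dg s w) v a := by
  funext w
  rw [Function.update_apply]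
  simp only [dg_eq] at *
  fin_cases v <;> fin_cases w <;> simp at h ⊢ <;> omega

theorem loop_spec (g : ℕ → ℕ → ℕ) (s : ℕ) (l : List ℕ) (M : ℕ) (h : loop g s l M ≠ 0) :
    ∀ x ∈ l, dg s (x / 7) = 0 → good (s + (x % 7 + 1) * 8 ^ (x / 7)) = true →
      ∃ K, g (s + (x % 7 + 1) * 8 ^ (x / 7)) K ≠ 0 := by
  induction l generalizing M with
  | nil => simp
  | cons y l ih =>
    intro x hx h1 h2
    rw [loop, force_eq] at h
    split_ifs at h with hc
    · rcases e : g (s + (y % 7 + 1) * 8 ^ (y / 7)) M with _ | K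
      · rw [e] at h; exact absurd rfl h
      · rw [e] at h
        rcases List.mem_cons.1 hx with rfl | hx
        · exact ⟨M, by omega⟩
        · exact ih _ h x hx h1 h2
    · rcases List.mem_cons.1 hx with rfl | hx
      · exact absurd ⟨h1, h2⟩ hc
      · exact ih _ h x hx h1 h2

theorem chk_spec (f : ℕ) : ∀ s N, chk f s N ≠ 0 → Win (T 8) 7 fun v => dg s v := by
  induction f with
  | zero => intro s N h; exact absurd rfl h
  | succ f ih =>
    intro s N h
    rw [chk, force_eq, force_eq] at h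
    split_ifs at h with hc
    swap
    · exact absurd rfl h
    have e := upd (s := s) (a := N % 8) ⟨N / 8 % 8, by omega⟩ hc.1 (by omega)
    refine Win.mk _ ⟨N / 8 % 8, by omega⟩ (N % 8) ⟨hc.1, hc.2.1, by omega, ?_⟩ ?_
    · rw [← e]; exact (good_iff _).1 hc.2.2
    · rw [← e]
      rintro w b ⟨h1, h2, h3, h4⟩
      have hw := w.2
      have e2 := upd w h1 (show b < 8 by omega)
      rw [← e2] at h4 ⊢
      have := loop_spec _ _ _ _ h (7 * w + (b - 1)) (List.mem_range.2 (by omega))
      rw [show (7 * w.val + (b - 1)) / 7 = w by omega,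
        show (7 * w.val + (b - 1)) % 7 + 1 = b by omega] at this
      obtain ⟨K, hK⟩ := this h1 ((good_iff _).2 h4)
      exact ih _ K hK

theorem ext_spec {c : Fin 8 → ℕ} (hc : ∀ v, 1 ≤ c v ∧ c v ≤ 6) (hd : Dist (T 8) c) (f : ℕ) :
    f ≤ 8 → ∀ s, (∀ w : Fin 8, dg s w = if w.val + f < 8 then c w else 0) → ext f s ≠ true := by
  induction f with
  | zero => intro _ s _; simp [ext]
  | succ f ih =>
    intro hf s hs h
    let v : Fin 8 := ⟨7 - f, by omega⟩
    have h0 := hc v
    have e := upd (s := s) (a := c v) v (by rw [hs, if_neg (by simp only [v]; omega)]) (by omega)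
    have hs' : ∀ w : Fin 8, dg (s + c v * 8 ^ (7 - f)) w = if w.val + f < 8 then c w else 0 := by
      intro w
      rw [congrFun e w, Function.update_apply]
      split_ifs with g1 g2 g2
      · rw [g1]
      · exact absurd (by rw [g1]; simp only [v]; omega) g2
      · rw [hs, if_pos]
        have : w.val ≠ 7 - f := fun x => g1 (Fin.ext x)
        omega
      · rw [hs, if_neg (by omega)]
    rw [ext, List.all_eq_true] at h
    have h1 := h (c v) (by simp; omega)
    rw [Bool.or_eq_true, Bool.not_eq_true', fb_eq] at h1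
    rcases h1 with h1 | h1
    · refine absurd ((good_iff _).2 ?_) (by rw [h1]; simp)
      intro u v x y a1 a2 c1 c2 c3 c4 e
      simp only [hs'] at c1 c2 c3 c4 e
      split_ifs at c1 c2 c3 c4 e <;> first | exact absurd rfl ‹_ ≠ 0› | skip
      exact hd u v x y a1 a2 c1 c2 c3 c4 e
    · exact ih (by omega) _ hs' h1

theorem lam_eq : lam (T 8) = 7 := by
  have h7 : 7 ∈ {k | 1 ≤ k ∧ ∃ c : Fin 8 → ℕ, (∀ v, 1 ≤ c v ∧ c v ≤ k) ∧ Dist (T 8) c} :=
    ⟨by norm_num, fun v => dg 16308433 v, by decide +kernel, (good_iff _).1 (by decide +kernel)⟩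
  refine le_antisymm (Nat.sInf_le h7) (le_csInf ⟨7, h7⟩ ?_)
  rintro k ⟨_, c, h1, h2⟩
  by_contra hk
  exact ext_spec (fun v => ⟨(h1 v).1, (h1 v).2.trans (by omega)⟩) h2 8 le_rfl 0
    (fun w => by simp [dg_eq]) ext_ok

theorem result : lam (T 8) = 7 ∧ Win (T 8) (lam (T 8)) fun _ => 0 := by
  refine ⟨lam_eq, ?_⟩
  rw [lam_eq]
  simpa [dg_eq] using chk_spec 4 0 cert cert_ok

end Pool.Agent.Results.MP_08a4a0_co.PlayerOne
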